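import Mathlib
set_option autoImplicit false
namespace Pool.Agent.Helper233.BA
open Finset Filter Topology Metric

theorem harnack (g : ℂ → ℂ) (a : ℂ) (ρ : ℝ) (hρ : 0 < ρ) (hg : DifferentiableOn ℂ g (ball a ρ))
    (hne : ∀ z ∈ ball a ρ, g z ≠ 0) (C : ℝ) (hC : ∀ z ∈ ball a ρ, ‖g z‖ < C) (z : ℂ) (hz : ‖z - a‖ < ρ) :
    Real.log (C / ‖g z‖) ≤ Real.log (C / ‖g a‖) * (1 + 2 * ‖z - a‖ / (ρ - ‖z - a‖)) := by
  have ha : a ∈ ball a ρ := mem_ball_self hρ
  have hCpos : 0 < C := (norm_nonneg _).trans_lt (hC a ha)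
  have hd : DifferentiableOn ℂ (deriv g) (ball a ρ) := hg.deriv isOpen_ball
  have hq : DifferentiableOn ℂ (fun z => deriv g z / g z) (ball a ρ) := hd.div hg hne
  obtain ⟨H, hH⟩ := hq.isExactOn_ball
  have hQ : ∀ w ∈ ball a ρ, HasDerivAt (fun z => g z * Complex.exp (-(H z))) 0 w := by
    intro w hw
    have h1 : HasDerivAt g (deriv g w) w := (hg.differentiableAt (isOpen_ball.mem_nhds hw)).hasDerivAt
    have h2 := h1.fun_mul ((hH w hw).fun_neg.cexp)
    have h3 := hne w hw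
    refine h2.congr_deriv ?_
    field_simp
    ring
  have hconst : ∀ w ∈ ball a ρ, g w * Complex.exp (-(H w)) = g a * Complex.exp (-(H a)) := by
    intro w hw
    apply isOpen_ball.is_const_of_deriv_eq_zero (convex_ball a ρ).isPreconnected
      (fun w hw => (hQ w hw).differentiableAt.differentiableWithinAt) (fun w hw => (hQ w hw).deriv) hw ha
  set F : ℂ → ℂ := fun ζ => H (a + ζ) - H a with hF
  have hmem : ∀ ζ ∈ ball (0:ℂ) ρ, a + ζ ∈ ball a ρ := by
    intro ζ hζ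
    rw [mem_ball_iff_norm] at *
    simpa using hζ
  have hgF : ∀ ζ ∈ ball (0:ℂ) ρ, g (a + ζ) = g a * Complex.exp (F ζ) := by
    intro ζ hζ
    have h1 := hconst _ (hmem ζ hζ)
    have h2 : g (a + ζ) = (g (a+ζ) * Complex.exp (-(H (a+ζ)))) * Complex.exp (H (a+ζ)) := by
      rw [mul_assoc, ← Complex.exp_add]; simp
    rw [h2, h1, hF, mul_assoc, ← Complex.exp_add]
    congr 2
    ring
  have hnF : ∀ ζ ∈ ball (0:ℂ) ρ, ‖g (a + ζ)‖ = ‖g a‖ * Real.exp (F ζ).re := by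
    intro ζ hζ
    rw [hgF ζ hζ, norm_mul, Complex.norm_exp]
  have hga : 0 < ‖g a‖ := norm_pos_iff.mpr (hne a ha)
  set M : ℝ := Real.log (C / ‖g a‖) with hM
  have hMpos : 0 < M := by
    apply Real.log_pos
    rw [lt_div_iff₀ hga, one_mul]
    exact hC a ha
  have hFd : DifferentiableOn ℂ F (ball 0 ρ) := by
    intro ζ hζ
    have h1 := (hH _ (hmem ζ hζ)).differentiableAt
    have h2 : DifferentiableAt ℂ (fun ζ : ℂ => H (a + ζ)) ζ := by
      apply DifferentiableAt.comp (g := H) ζ h1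
      fun_prop
    exact (h2.sub_const _).differentiableWithinAt
  have hFM : Set.MapsTo F (ball 0 ρ) {z | z.re ≤ M} := by
    intro ζ hζ
    have h1 := hC _ (hmem ζ hζ)
    rw [hnF ζ hζ] at h1
    simp only [Set.mem_ofPred_eq]
    rw [hM, Real.le_log_iff_exp_le (by positivity), le_div_iff₀ hga, mul_comm]
    exact h1.le
  have hz0 : z - a ∈ ball (0:ℂ) ρ := by simpa using hz
  have hbc := Complex.borelCaratheodory_zero hMpos hFd hFM hρ hz0 (by simp [hF])
  have h1 : -(2 * M * ‖z - a‖ / (ρ - ‖z - a‖)) ≤ (F (z - a)).re := by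
    have := Complex.abs_re_le_norm (F (z - a))
    have := (abs_le.mp this).1
    linarith
  have h2 := hnF _ hz0
  rw [add_sub_cancel] at h2
  have h3 : Real.log (C / ‖g z‖) = M - (F (z-a)).re := by
    rw [h2, Real.log_div hCpos.ne' (by positivity), Real.log_mul hga.ne' (Real.exp_pos _).ne', Real.log_exp, hM,
      Real.log_div hCpos.ne' hga.ne']
    ring
  rw [h3]
  have : M * (1 + 2 * ‖z - a‖ / (ρ - ‖z - a‖)) = M + 2 * M * ‖z - a‖ / (ρ - ‖z - a‖) := by ring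
  rw [this]
  linarith

theorem nearest_root (n : ℕ) (hn : 0 < n) (r : ℝ) (hr : 0 < r) (ζ : ℂ) (hζ : ‖ζ‖ = r) :
    ∃ k < n, ‖(r : ℂ) * Complex.exp (2 * Real.pi * Complex.I / n) ^ k - ζ‖ ≤ r * (2 * Real.pi / n) := by
  obtain ⟨θ, hθ0, hθ1, hθ⟩ : ∃ θ : ℝ, 0 ≤ θ ∧ θ < 2 * Real.pi ∧ ζ = r * Complex.exp (θ * Complex.I) := by
    have h1 := Complex.norm_mul_exp_arg_mul_I ζ
    rw [hζ] at h1
    by_cases h : 0 ≤ ζ.arg
    · exact ⟨ζ.arg, h, by linarith [Complex.arg_le_pi ζ, Real.pi_pos], h1.symm⟩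
    · refine ⟨ζ.arg + 2 * Real.pi, by linarith [Complex.neg_pi_lt_arg ζ, Real.pi_pos], by linarith, ?_⟩
      nth_rewrite 1 [← h1]
      congr 1
      push_cast
      rw [add_mul, Complex.exp_add, Complex.exp_two_pi_mul_I, mul_one]
  have hn' : (0:ℝ) < n := by exact_mod_cast hn
  have hpi := Real.pi_pos
  set x : ℝ := n * θ / (2 * Real.pi) with hx
  have hx0 : 0 ≤ x := by positivity
  have hxn : x < n := by
    rw [hx, div_lt_iff₀ (by positivity)]
    exact mul_lt_mul_of_pos_left hθ1 hn'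
  set k := ⌊x⌋₊ with hk
  have hk1 : (k:ℝ) ≤ x := Nat.floor_le hx0
  have hk2 : x < k + 1 := Nat.lt_floor_add_one x
  refine ⟨k, ?_, ?_⟩
  · have : (k:ℝ) < n := lt_of_le_of_lt hk1 hxn
    exact_mod_cast this
  · rw [hθ, ← mul_sub, norm_mul, Complex.norm_real, Real.norm_eq_abs, abs_of_pos hr]
    apply mul_le_mul_of_nonneg_left _ hr.le
    rw [← Complex.exp_nat_mul]
    have h1 : (k:ℂ) * (2 * Real.pi * Complex.I / n) = ((2 * Real.pi * k / n : ℝ) : ℂ) * Complex.I := by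
      push_cast; ring
    rw [h1]
    have h2 : Complex.exp (((2 * Real.pi * k / n : ℝ) : ℂ) * Complex.I) - Complex.exp (θ * Complex.I) =
        Complex.exp (θ * Complex.I) * (Complex.exp (((2 * Real.pi * k / n - θ : ℝ) : ℂ) * Complex.I) - 1) := by
      rw [mul_sub, ← Complex.exp_add, mul_one]
      congr 2
      push_cast; ring
    rw [h2, norm_mul, Complex.norm_exp_ofReal_mul_I, one_mul]
    have h3 : |2 * Real.pi * k / n - θ| ≤ 2 * Real.pi / n := by
      have h4 : θ = 2 * Real.pi * x / n := by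
        rw [hx]; field_simp
      rw [h4, ← sub_div, ← mul_sub, abs_div, abs_mul, abs_of_pos hn', abs_of_pos (by positivity : 0 < 2 * Real.pi)]
      apply div_le_div_of_nonneg_right _ hn'.le
      apply mul_le_of_le_one_right (by positivity)
      rw [abs_le]; constructor <;> linarith
    refine le_trans ?_ h3
    rw [mul_comm]
    exact Real.norm_exp_I_mul_ofReal_sub_one_le

/-- One step: from an interior point of a disc to a point of the net. -/
theorem disc_step (g : ℂ → ℂ) (hg : DifferentiableOn ℂ g (ball 0 1)) (hne : ∀ z ∈ ball (0:ℂ) 1, g z ≠ 0)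
    (C : ℝ) (hC : ∀ z ∈ ball (0:ℂ) 1, ‖g z‖ < C) (n : ℕ) (hn : 0 < n) (t : ℝ) (ht : 0 < t) (ht1 : t ≤ 1/2)
    (R : ℝ) (hR : R = 1 + (2 * Real.pi / t) / n) (ζ : ℂ) (hζ : ‖ζ‖ ≤ R⁻¹) :
    ∃ k < n, Real.log (C / ‖g ((R⁻¹ : ℝ) * Complex.exp (2 * Real.pi * Complex.I / n) ^ k)‖) ≤
      (1 + 4 * t) * Real.log (C / ‖g ζ‖) := by
  have hn' : (0:ℝ) < n := by exact_mod_cast hn
  have hpi := Real.pi_pos
  have hR1 : 1 < R := by
    rw [hR]
    have : 0 < (2 * Real.pi / t) / n := by positivity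
    linarith
  have hRpos : 0 < R := by linarith
  set r := R⁻¹ with hr
  have hr0 : 0 < r := by positivity
  have hr1 : r < 1 := inv_lt_one_of_one_lt₀ hR1
  have hsub : closedBall (0:ℂ) r ⊆ ball 0 1 := closedBall_subset_ball hr1
  obtain ⟨ζ0, hζ0, hmax⟩ := Complex.exists_mem_frontier_isMaxOn_norm (f := g) (U := ball (0:ℂ) r) isBounded_ball
    (nonempty_ball.mpr hr0) ((hg.mono (by rw [closure_ball _ hr0.ne']; exact hsub)).diffContOnCl)
  rw [frontier_ball _ hr0.ne'] at hζ0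
  rw [closure_ball _ hr0.ne'] at hmax
  have hζ0' : ‖ζ0‖ = r := by simpa using hζ0
  have hle : ‖g ζ‖ ≤ ‖g ζ0‖ := hmax (by simpa using hζ)
  obtain ⟨k, hk, hkd⟩ := nearest_root n hn r hr0 ζ0 hζ0'
  refine ⟨k, hk, ?_⟩
  set w : ℂ := (r : ℂ) * Complex.exp (2 * Real.pi * Complex.I / n) ^ k with hw
  have hsub2 : ball ζ0 (1 - r) ⊆ ball 0 1 := by
    intro z hz
    rw [mem_ball_iff_norm] at hz
    rw [mem_ball_zero_iff]
    calc ‖z‖ = ‖(z - ζ0) + ζ0‖ := by congr 1; ring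
      _ ≤ ‖z - ζ0‖ + ‖ζ0‖ := norm_add_le _ _
      _ < 1 := by rw [hζ0']; linarith
  have hdist : ‖w - ζ0‖ ≤ t * (1 - r) := by
    refine hkd.trans ?_
    have h1 : 1 - r = r * ((2 * Real.pi / t) / n) := by
      have : r * R = 1 := inv_mul_cancel₀ hRpos.ne'
      rw [hR] at this
      linarith
    rw [h1]
    have : t * (r * ((2 * Real.pi / t) / n)) = r * (2 * Real.pi / n) := by field_simp
    rw [this]
  have h1r : 0 < 1 - r := by linarith
  have hlt : ‖w - ζ0‖ < 1 - r := by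
    refine lt_of_le_of_lt hdist ?_
    nlinarith
  have hh := harnack g ζ0 (1 - r) h1r (hg.mono hsub2) (fun z hz => hne z (hsub2 hz)) C
    (fun z hz => hC z (hsub2 hz)) w hlt
  have hζ0m : ζ0 ∈ ball (0:ℂ) 1 := hsub (by simp [hζ0'])
  have hζm : ζ ∈ ball (0:ℂ) 1 := hsub (by simpa using hζ)
  have hgζ0 : 0 < ‖g ζ0‖ := norm_pos_iff.mpr (hne _ hζ0m)
  have hgζ : 0 < ‖g ζ‖ := norm_pos_iff.mpr (hne _ hζm)
  have hCpos : 0 < C := (norm_nonneg _).trans_lt (hC _ hζm)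
  have hlog0 : 0 ≤ Real.log (C / ‖g ζ0‖) := by
    apply Real.log_nonneg
    rw [le_div_iff₀ hgζ0, one_mul]; exact (hC _ hζ0m).le
  have hlogle : Real.log (C / ‖g ζ0‖) ≤ Real.log (C / ‖g ζ‖) := by
    apply Real.log_le_log (by positivity)
    exact div_le_div_of_nonneg_left hCpos.le hgζ hle
  have hfrac : 2 * ‖w - ζ0‖ / (1 - r - ‖w - ζ0‖) ≤ 4 * t := by
    rw [div_le_iff₀ (by linarith)]
    have h3 : ‖w - ζ0‖ ≤ t * (1 - r) := hdist
    have h4 : 4 * t * (1 - r - ‖w - ζ0‖) ≥ 4 * t * ((1 - r) - t * (1 - r)) := by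
      apply mul_le_mul_of_nonneg_left _ (by positivity)
      linarith
    have h5 : 4 * t * ((1 - r) - t * (1 - r)) ≥ 2 * (t * (1 - r)) := by
      have : 0 < t * (1 - r) := by positivity
      nlinarith
    linarith
  calc Real.log (C / ‖g w‖) ≤ Real.log (C / ‖g ζ0‖) * (1 + 2 * ‖w - ζ0‖ / (1 - r - ‖w - ζ0‖)) := hh
    _ ≤ Real.log (C / ‖g ζ0‖) * (1 + 4 * t) := by
      apply mul_le_mul_of_nonneg_left _ hlog0
      linarith
    _ ≤ Real.log (C / ‖g ζ‖) * (1 + 4 * t) := by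
      apply mul_le_mul_of_nonneg_right hlogle (by positivity)
    _ = _ := by ring

end Pool.Agent.Helper233.BA
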