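import Pool.Agent.Helper233.BA.Geom
import Pool.Agent.Helper233.BA.Harn
set_option autoImplicit false
namespace Pool.Agent.Helper233.BA
open Finset Filter Topology Metric

noncomputable def om (n : ℕ) : ℂ := Complex.exp (2 * Real.pi * Complex.I / n)

theorem norm_om (n : ℕ) : ‖om n‖ = 1 := by
  have : (2 * Real.pi * Complex.I / n : ℂ) = ((2 * Real.pi / n : ℝ) : ℂ) * Complex.I := by push_cast; ring
  rw [om, this, Complex.norm_exp_ofReal_mul_I]

theorem om_pow (n : ℕ) (hn : 0 < n) : om n ^ n = 1 := by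
  have : (n : ℂ) ≠ 0 := by exact_mod_cast hn.ne'
  rw [om, ← Complex.exp_nat_mul, mul_div_cancel₀ _ this, Complex.exp_two_pi_mul_I]

noncomputable def Psi (n : ℕ) (R s : ℝ) (F : Finset E) (z : E) : ℂ :=
  ∏ P ∈ F, (1 - ((R:ℂ) * xf s P z) ^ n)

open scoped Classical in
noncomputable def children (n : ℕ) (R s : ℝ) (F : Finset E) : Finset E :=
  F.biUnion (fun P => (range n).image (fun k => node s P ((R:ℂ) * om n ^ k)))

noncomputable def sig (R s : ℝ) : ℝ := s * √((R ^ 2 - 1) / (1 + s ^ 2))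

theorem mem_children (n : ℕ) (R s : ℝ) (F : Finset E) (P' : E) :
    P' ∈ children n R s F ↔ ∃ P ∈ F, ∃ k < n, node s P ((R:ℂ) * om n ^ k) = P' := by
  simp [children]

theorem norm_w (n : ℕ) (R : ℝ) (hR : 0 < R) (k : ℕ) : ‖(R:ℂ) * om n ^ k‖ = R := by
  rw [norm_mul, norm_pow, norm_om, one_pow, mul_one, Complex.norm_real, Real.norm_eq_abs, abs_of_pos hR]

theorem sig_sq (R s : ℝ) (hR : 1 < R) : sig R s ^ 2 = s ^ 2 * ((R ^ 2 - 1) / (1 + s ^ 2)) := by
  rw [sig, mul_pow, Real.sq_sqrt]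
  apply div_nonneg
  · nlinarith
  · positivity

theorem sig_pos (R s : ℝ) (hR : 1 < R) (hs : 0 < s) : 0 < sig R s := by
  rw [sig]
  apply mul_pos hs
  apply Real.sqrt_pos.mpr
  apply div_pos
  · nlinarith
  · positivity

theorem sig_le (R s : ℝ) (hR : 1 < R) (hs : 0 < s) (hR2 : R ^ 2 - 1 ≤ 1 / 16) : sig R s ≤ s / 4 := by
  apply le_of_sq_le_sq _ (by positivity)
  rw [sig_sq R s hR]
  have h1 : (R ^ 2 - 1) / (1 + s ^ 2) ≤ 1 / 16 := by
    rw [div_le_iff₀ (by positivity)]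
    nlinarith [sq_nonneg s]
  have h2 : 0 < s ^ 2 := by positivity
  nlinarith

theorem norm_child (n : ℕ) (R s : ℝ) (hR : 1 < R) (P : E) (hP : ‖P‖ ^ 2 = 1 + s ^ 2) (k : ℕ) :
    ‖node s P ((R:ℂ) * om n ^ k)‖ ^ 2 = 1 + sig R s ^ 2 := by
  rw [norm_node_sq s P hP, norm_w n R (by linarith), sig_sq R s hR]
  field_simp
  ring

theorem dist_child (n : ℕ) (R s : ℝ) (hR : 1 < R) (hs : 0 < s) (P : E) (hP : ‖P‖ ^ 2 = 1 + s ^ 2) (k : ℕ) :
    ‖node s P ((R:ℂ) * om n ^ k) - P‖ ≤ s + sig R s := by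
  have h1 := dist_line s P hP _ (inner_P_node s P hP ((R:ℂ) * om n ^ k))
  rw [norm_child n R s hR P hP] at h1
  have h2 := sig_pos R s hR hs
  apply le_of_sq_le_sq _ (by positivity)
  rw [h1]
  nlinarith

theorem inner_node (s : ℝ) (P : E) (w : ℂ) (z : E) :
    inner ℂ (node s P w) z = ((1 + s ^ 2 : ℝ) : ℂ)⁻¹ * (inner ℂ P z + (starRingEnd ℂ) w * s * inner ℂ (J P) z) := by
  rw [node, inner_smul_left, inner_add_left, inner_smul_left]
  simp only [map_inv₀, Complex.conj_ofReal, map_mul]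

theorem factor_zero (n : ℕ) (hn : 0 < n) (R s : ℝ) (hs : 0 < s) (P : E) (hP : ‖P‖ ^ 2 = 1 + s ^ 2) (k : ℕ)
    (z : E) (hz : ‖z‖ ≤ 1) (h : inner ℂ (node s P ((R:ℂ) * om n ^ k)) z = 1) :
    1 - ((R:ℂ) * xf s P z) ^ n = 0 := by
  rw [inner_node] at h
  have hβ := beta_ne s hs P hP z hz
  have h1 := one_add_sq_ne s
  rw [inv_mul_eq_iff_eq_mul₀ h1, mul_one] at h
  have h2 : (starRingEnd ℂ) ((R:ℂ) * om n ^ k) * xf s P z = 1 := by
    rw [xf]
    have : (starRingEnd ℂ) ((R:ℂ) * om n ^ k) * (s * inner ℂ (J P) z) = 1 + (s:ℂ) ^ 2 - inner ℂ P z := by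
      push_cast at h
      linear_combination h
    rw [mul_div_assoc', this, div_self hβ]
  have h3 : (starRingEnd ℂ) (om n ^ k) * om n ^ k = 1 := by
    rw [mul_comm, Complex.mul_conj, Complex.normSq_eq_norm_sq, norm_pow, norm_om]; simp
  have h4 : (R:ℂ) * xf s P z = om n ^ k := by
    rw [map_mul, Complex.conj_ofReal] at h2
    have : (R:ℂ) * xf s P z = (om n ^ k) * ((R:ℂ) * (starRingEnd ℂ) (om n ^ k) * xf s P z) := by
      linear_combination (-(R:ℂ) * xf s P z) * h3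
    rw [this, h2, mul_one]
  rw [h4, ← pow_mul, mul_comm k n, pow_mul, om_pow n hn, one_pow, sub_self]

theorem Psi_zero (n : ℕ) (hn : 0 < n) (R s : ℝ) (hs : 0 < s) (F : Finset E) (hF : ∀ P ∈ F, ‖P‖ ^ 2 = 1 + s ^ 2)
    (P' : E) (hP' : P' ∈ children n R s F) (z : E) (hz : ‖z‖ ≤ 1) (h : inner ℂ P' z = 1) : Psi n R s F z = 0 := by
  rw [mem_children] at hP'
  obtain ⟨P, hP, k, hk, rfl⟩ := hP'
  exact Finset.prod_eq_zero hP (factor_zero n hn R s hs P (hF P hP) k z hz h)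

theorem xf_contOn (s : ℝ) (hs : 0 < s) (P : E) (hP : ‖P‖ ^ 2 = 1 + s ^ 2) :
    ContinuousOn (xf s P) (closedBall 0 1) := by
  unfold xf
  apply ContinuousOn.div
  · fun_prop
  · fun_prop
  · intro z hz
    exact beta_ne s hs P hP z (by simpa using hz)

theorem xf_diffOn (s : ℝ) (hs : 0 < s) (P : E) (hP : ‖P‖ ^ 2 = 1 + s ^ 2) :
    DifferentiableOn ℂ (xf s P) (closedBall 0 1) := by
  unfold xf
  have h1 : ∀ Q : E, Differentiable ℂ (fun z : E => (inner ℂ Q z : ℂ)) := fun Q => (innerSL ℂ Q).differentiable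
  simp only [div_eq_mul_inv]
  apply DifferentiableOn.fun_mul
  · exact ((h1 _).const_mul _).differentiableOn
  · apply DifferentiableOn.fun_inv
    · exact ((h1 _).const_sub _).differentiableOn
    · intro z hz
      exact beta_ne s hs P hP z (by simpa using hz)

theorem Psi_contOn (n : ℕ) (R s : ℝ) (hs : 0 < s) (F : Finset E) (hF : ∀ P ∈ F, ‖P‖ ^ 2 = 1 + s ^ 2) :
    ContinuousOn (Psi n R s F) (closedBall 0 1) := by
  unfold Psi
  apply continuousOn_finsetProd
  intro P hP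
  exact continuousOn_const.sub ((continuousOn_const.mul (xf_contOn s hs P (hF P hP))).pow n)

theorem Psi_diffOn (n : ℕ) (R s : ℝ) (hs : 0 < s) (F : Finset E) (hF : ∀ P ∈ F, ‖P‖ ^ 2 = 1 + s ^ 2) :
    DifferentiableOn ℂ (Psi n R s F) (closedBall 0 1) := by
  unfold Psi
  classical
  induction F using Finset.induction_on with
  | empty => simp only [Finset.prod_empty]; exact differentiableOn_const _
  | insert P F hPF ih =>
    simp only [Finset.prod_insert hPF]
    apply DifferentiableOn.fun_mul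
    · exact (((xf_diffOn s hs P (hF P (Finset.mem_insert_self _ _))).const_mul (R:ℂ)).pow n).const_sub 1
    · exact ih (fun Q hQ => hF Q (Finset.mem_insert_of_mem hQ))

theorem pow_le_exp (c : ℝ) (hc : 0 < c) (n : ℕ) (hn : 0 < n) : (1 + c / n) ^ n ≤ Real.exp c := by
  have hn' : (0:ℝ) < n := by exact_mod_cast hn
  have h1 : 1 + c / n ≤ Real.exp (c / n) := by
    have := Real.add_one_le_exp (c / n)
    linarith
  calc (1 + c / n) ^ n ≤ (Real.exp (c / n)) ^ n := pow_le_pow_left₀ (by positivity) h1 n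
    _ = Real.exp c := by
      rw [← Real.exp_nat_mul]; congr 1; field_simp

theorem Psi_conv (s : ℝ) (F : Finset E) (c : ℝ) (hc : 0 < c)
    (S : Set E) (hx : ∀ P ∈ F, ∃ θ : ℝ, θ < 1 ∧ ∀ z ∈ S, ‖xf s P z‖ ≤ θ) (ε : ℝ) (hε : 0 < ε) :
    ∀ᶠ n : ℕ in atTop, ∀ z ∈ S, ‖Psi n (1 + c / n) s F z - 1‖ ≤ ε := by
  set δ : ℝ := Real.log (1 + ε) / (F.card + 1) with hδ
  have hδpos : 0 < δ := by
    apply div_pos (Real.log_pos (by linarith)) (by positivity)
  have h1 : ∀ P ∈ F, ∀ᶠ n : ℕ in atTop, ∀ z ∈ S, ‖(((1 + c / n : ℝ) : ℂ) * xf s P z) ^ n‖ ≤ δ := by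
    intro P hP
    obtain ⟨θ, hθ, hθS⟩ := hx P hP
    have hθ' : max θ 0 < 1 := max_lt hθ one_pos
    have h2 : Tendsto (fun n : ℕ => Real.exp c * (max θ 0) ^ n) atTop (𝓝 (Real.exp c * 0)) :=
      (tendsto_pow_atTop_nhds_zero_of_lt_one (le_max_right _ _) hθ').const_mul _
    rw [mul_zero] at h2
    filter_upwards [h2.eventually_le_const hδpos, eventually_gt_atTop 0] with n hn hn0
    intro z hz
    refine le_trans ?_ hn
    have hpos : 0 < 1 + c / n := by positivity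
    rw [mul_pow, norm_mul, norm_pow, norm_pow, Complex.norm_real, Real.norm_eq_abs, abs_of_pos hpos]
    apply mul_le_mul (pow_le_exp c hc n hn0) _ (by positivity) (Real.exp_pos c).le
    exact pow_le_pow_left₀ (norm_nonneg _) ((hθS z hz).trans (le_max_left _ _)) n
  have h2 := (Filter.eventually_all_finset F).mpr h1
  filter_upwards [h2] with n hn z hz
  have h3 := Finset.norm_prod_one_add_sub_one_le F (fun P => -(((1 + c / n : ℝ) : ℂ) * xf s P z) ^ n)
  have h4 : Psi n (1 + c / n) s F z = ∏ P ∈ F, (1 + -(((1 + c / n : ℝ) : ℂ) * xf s P z) ^ n) := by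
    simp only [Psi, sub_eq_add_neg]
  rw [h4]
  refine h3.trans ?_
  have h5 : ∑ P ∈ F, ‖-(((1 + c / n : ℝ) : ℂ) * xf s P z) ^ n‖ ≤ Real.log (1 + ε) := by
    calc ∑ P ∈ F, ‖-(((1 + c / n : ℝ) : ℂ) * xf s P z) ^ n‖ ≤ ∑ P ∈ F, δ := by
          apply Finset.sum_le_sum
          intro P hP
          rw [norm_neg]
          exact hn P hP z hz
      _ = F.card * δ := by rw [Finset.sum_const, nsmul_eq_mul]
      _ ≤ Real.log (1 + ε) := by
          rw [hδ, mul_div_assoc', div_le_iff₀ (by positivity), mul_comm]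
          apply mul_le_mul_of_nonneg_left (by linarith)
          exact (Real.log_pos (by linarith)).le
  have h6 := Real.exp_le_exp.mpr h5
  rw [Real.exp_log (by linarith)] at h6
  linarith

theorem Psi_bound (s : ℝ) (hs : 0 < s) (F : Finset E) (hF : ∀ P ∈ F, ‖P‖ ^ 2 = 1 + s ^ 2) (c : ℝ) (hc : 0 < c)
    (n : ℕ) (hn : 0 < n) (z : E) (hz : ‖z‖ ≤ 1) :
    ‖Psi n (1 + c / n) s F z - 1‖ ≤ (1 + Real.exp c) ^ F.card + 1 := by
  have h1 : ‖Psi n (1 + c / n) s F z‖ ≤ (1 + Real.exp c) ^ F.card := by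
    rw [Psi, norm_prod]
    calc ∏ P ∈ F, ‖1 - (((1 + c / n : ℝ) : ℂ) * xf s P z) ^ n‖ ≤ ∏ P ∈ F, (1 + Real.exp c) := by
          apply Finset.prod_le_prod
          · intro P hP; exact norm_nonneg _
          · intro P hP
            refine (norm_sub_le _ _).trans ?_
            rw [norm_one]
            apply add_le_add_right
            have hpos : 0 < 1 + c / n := by positivity
            rw [mul_pow, norm_mul, norm_pow, norm_pow, Complex.norm_real, Real.norm_eq_abs, abs_of_pos hpos]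
            calc (1 + c / n) ^ n * ‖xf s P z‖ ^ n ≤ Real.exp c * 1 := by
                  apply mul_le_mul (pow_le_exp c hc n hn) _ (by positivity) (Real.exp_pos c).le
                  exact pow_le_one₀ (norm_nonneg _) (xf_le_one s hs P (hF P hP) z hz)
              _ = _ := mul_one _
      _ = _ := by rw [Finset.prod_const]
  calc ‖Psi n (1 + c / n) s F z - 1‖ ≤ ‖Psi n (1 + c / n) s F z‖ + ‖(1:ℂ)‖ := norm_sub_le _ _
    _ ≤ _ := by rw [norm_one]; linarith

structure St where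
  F : Finset E
  s : ℝ
  h : E → ℝ

noncomputable def tt (m : ℕ) : ℝ := (1/2) ^ (m+4)

noncomputable def cc (m : ℕ) : ℝ := 2 * Real.pi / tt m

theorem tt_pos (m : ℕ) : 0 < tt m := by unfold tt; positivity

theorem cc_pos (m : ℕ) : 0 < cc m := by
  have := tt_pos m
  have := Real.pi_pos
  unfold cc; positivity

noncomputable def RR (m n : ℕ) : ℝ := 1 + cc m / n

def Good (m : ℕ) (S : St) (n : ℕ) : Prop :=
  0 < n ∧ RR m n ^ 2 - 1 ≤ 1 / 16 ∧
  (∀ z ∈ closedBall (0:E) 1, S.h z * ‖Psi n (RR m n) S.s S.F z - 1‖ ≤ (1/2) ^ m) ∧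
  (∀ z ∈ closedBall (0:E) 1, (∀ P ∈ S.F, ‖xf S.s P z‖ ≤ 1 - (1/2) ^ (m+1)) →
    ‖Psi n (RR m n) S.s S.F z - 1‖ ≤ (1/2) ^ (m+2))

structure Inv (S : St) : Prop where
  s_pos : 0 < S.s
  ne : S.F.Nonempty
  norm : ∀ P ∈ S.F, ‖P‖ ^ 2 = 1 + S.s ^ 2
  cont : ContinuousOn S.h (closedBall 0 1)
  nonneg : ∀ z, 0 ≤ S.h z
  zero : ∀ P ∈ S.F, ∀ z ∈ closedBall (0:E) 1, inner ℂ P z = 1 → S.h z = 0

theorem exists_good (m : ℕ) (S : St) (hS : Inv S) : ∃ n, Good m S n := by
  have hc := cc_pos m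
  have e1 : ∀ᶠ n : ℕ in atTop, RR m n ^ 2 - 1 ≤ 1 / 16 := by
    have h1 : Tendsto (fun n : ℕ => RR m n) atTop (𝓝 (1 + 0)) := by
      unfold RR
      exact tendsto_const_nhds.add (tendsto_const_div_atTop_nhds_zero_nat (cc m))
    have h2 : Tendsto (fun n : ℕ => RR m n ^ 2 - 1) atTop (𝓝 ((1 + 0) ^ 2 - 1)) := (h1.pow 2).sub_const 1
    apply h2.eventually_le_const
    norm_num
  set C : ℝ := (1 + Real.exp (cc m)) ^ S.F.card + 1 with hC
  have hCpos : 0 < C := by positivity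
  set A : Set E := {z | z ∈ closedBall (0:E) 1 ∧ (1/2 : ℝ) ^ m / C ≤ S.h z} with hA
  have hAc : IsCompact A := by
    have : A = closedBall (0:E) 1 ∩ S.h ⁻¹' (Set.Ici ((1/2 : ℝ) ^ m / C)) := by
      ext z; simp [hA]
    rw [this]
    exact (isCompact_closedBall (0:E) 1).of_isClosed_subset
      (hS.cont.preimage_isClosed_of_isClosed isClosed_closedBall isClosed_Ici) Set.inter_subset_left
  have e2 : ∀ᶠ n : ℕ in atTop, ∀ z ∈ A, ‖Psi n (RR m n) S.s S.F z - 1‖ ≤ (1/2) ^ m / (1 + sSup (S.h '' (closedBall (0:E) 1))) := by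
    have hbdd : BddAbove (S.h '' (closedBall (0:E) 1)) :=
      ((isCompact_closedBall (0:E) 1).image_of_continuousOn hS.cont).bddAbove
    have hsup : 0 ≤ sSup (S.h '' (closedBall (0:E) 1)) := by
      apply Real.sSup_nonneg
      rintro x ⟨z, hz, rfl⟩
      exact hS.nonneg z
    apply Psi_conv S.s S.F (cc m) hc A
    · intro P hP
      by_cases hne : A.Nonempty
      · obtain ⟨z0, hz0, hmax⟩ := hAc.exists_isMaxOn hne
          (((xf_contOn S.s hS.s_pos P (hS.norm P hP)).mono (fun z hz => hz.1)).norm)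
        refine ⟨‖xf S.s P z0‖, ?_, fun z hz => hmax hz⟩
        have h1 := xf_le_one S.s hS.s_pos P (hS.norm P hP) z0 (by simpa using hz0.1)
        apply lt_of_le_of_ne h1
        intro h2
        have h3 := inner_of_xf_eq_one S.s hS.s_pos P (hS.norm P hP) z0 (by simpa using hz0.1) h2
        have h4 := hS.zero P hP z0 hz0.1 h3
        have h5 := hz0.2
        rw [h4] at h5
        have : 0 < (1/2 : ℝ) ^ m / C := by positivity
        linarith
      · exact ⟨0, one_pos, fun z hz => absurd ⟨z, hz⟩ hne⟩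
    · positivity
  have e3 : ∀ᶠ n : ℕ in atTop, ∀ z ∈ {z : E | z ∈ closedBall (0:E) 1 ∧ ∀ P ∈ S.F, ‖xf S.s P z‖ ≤ 1 - (1/2) ^ (m+1)},
      ‖Psi n (RR m n) S.s S.F z - 1‖ ≤ (1/2) ^ (m+2) := by
    apply Psi_conv S.s S.F (cc m) hc
    · intro P hP
      refine ⟨1 - (1/2) ^ (m+1), ?_, fun z hz => hz.2 P hP⟩
      have : 0 < (1/2 : ℝ) ^ (m+1) := by positivity
      linarith
    · positivity
  obtain ⟨n, ⟨⟨h1, h2⟩, h3⟩, h4⟩ := ((e1.and e2).and e3).and (eventually_gt_atTop 0) |>.exists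
  refine ⟨n, h4, h1, ?_, fun z hz hP => h3 z ⟨hz, hP⟩⟩
  intro z hz
  have hbdd : BddAbove (S.h '' (closedBall (0:E) 1)) :=
      ((isCompact_closedBall (0:E) 1).image_of_continuousOn hS.cont).bddAbove
  by_cases hzA : z ∈ A
  · have h5 : S.h z ≤ sSup (S.h '' (closedBall (0:E) 1)) := le_csSup hbdd ⟨z, hz, rfl⟩
    have h6 := h2 z hzA
    have h7 := hS.nonneg z
    set B := sSup (S.h '' (closedBall (0:E) 1)) with hB
    have hBpos : 0 < 1 + B := by linarith
    calc S.h z * ‖Psi n (RR m n) S.s S.F z - 1‖ ≤ (1 + B) * ((1/2) ^ m / (1 + B)) := by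
          apply mul_le_mul (by linarith) h6 (norm_nonneg _) hBpos.le
      _ = (1/2) ^ m := by field_simp
  · have h5 : S.h z < (1/2 : ℝ) ^ m / C := by
      by_contra h
      push Not at h
      exact hzA ⟨hz, h⟩
    have h6 := Psi_bound S.s hS.s_pos S.F hS.norm (cc m) hc n h4 z (by simpa using hz)
    calc S.h z * ‖Psi n (RR m n) S.s S.F z - 1‖ ≤ ((1/2 : ℝ) ^ m / C) * C := by
          apply mul_le_mul h5.le h6 (norm_nonneg _) (by positivity)
      _ = (1/2) ^ m := by field_simp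

open scoped Classical in
noncomputable def pick (m : ℕ) (S : St) : ℕ := if h : ∃ n, Good m S n then h.choose else 1

theorem pick_good (m : ℕ) (S : St) (hS : Inv S) : Good m S (pick m S) := by
  have h := exists_good m S hS
  rw [pick, dif_pos h]
  exact h.choose_spec

noncomputable def nextSt (m : ℕ) (S : St) : St where
  F := children (pick m S) (RR m (pick m S)) S.s S.F
  s := sig (RR m (pick m S)) S.s
  h := fun z => ‖Psi (pick m S) (RR m (pick m S)) S.s S.F z‖ * max (S.h z) 1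

theorem RR_gt (m n : ℕ) (hn : 0 < n) : 1 < RR m n := by
  have := cc_pos m
  unfold RR
  have : 0 < cc m / n := by positivity
  linarith

theorem inv_next (m : ℕ) (S : St) (hS : Inv S) : Inv (nextSt m S) := by
  obtain ⟨hn, hR2, -, -⟩ := pick_good m S hS
  have hR := RR_gt m _ hn
  refine ⟨sig_pos _ _ hR hS.s_pos, ?_, ?_, ?_, ?_, ?_⟩
  · obtain ⟨P, hP⟩ := hS.ne
    exact ⟨node S.s P ((RR m (pick m S) : ℂ) * om (pick m S) ^ 0), (mem_children _ _ _ _ _).mpr ⟨P, hP, 0, hn, rfl⟩⟩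
  · intro P' hP'
    obtain ⟨P, hP, k, hk, rfl⟩ := (mem_children _ _ _ _ _).mp hP'
    exact norm_child _ _ _ hR P (hS.norm P hP) k
  · apply ContinuousOn.mul
    · exact (Psi_contOn _ _ _ hS.s_pos _ hS.norm).norm
    · exact hS.cont.sup continuousOn_const
  · intro z
    apply mul_nonneg (norm_nonneg _)
    exact le_max_of_le_right zero_le_one
  · intro P' hP' z hz h
    have := Psi_zero (pick m S) hn (RR m (pick m S)) S.s hS.s_pos S.F hS.norm P' hP' z (by simpa using hz) h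
    simp only [nextSt, this, norm_zero, zero_mul]

noncomputable def P0 : E := !₂[(5/4 : ℂ), 0]

noncomputable def stt : ℕ → St
  | 0 => ⟨{P0}, 3/4, fun _ => 0⟩
  | m+1 => nextSt m (stt m)

theorem inv_stt (m : ℕ) : Inv (stt m) := by
  induction m with
  | zero =>
    refine ⟨by norm_num [stt], ⟨P0, by simp [stt]⟩, ?_, continuousOn_const, fun z => le_refl _, fun _ _ _ _ _ => rfl⟩
    intro P hP
    simp only [stt, Finset.mem_singleton] at hP
    rw [hP, EuclideanSpace.norm_sq_eq]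
    simp only [stt, P0, Fin.sum_univ_two]
    norm_num
  | succ m ih => exact inv_next m _ ih

end Pool.Agent.Helper233.BA
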