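import Mathlib
set_option autoImplicit false
namespace Pool.Agent.Helper233.BA
open Finset Filter Topology Metric

abbrev E : Type := EuclideanSpace ℂ (Fin 2)

/-- orthogonal partner of a vector of `ℂ²` -/
noncomputable def J (P : E) : E := !₂[-(starRingEnd ℂ) (P 1), (starRingEnd ℂ) (P 0)]

theorem inner_two (P z : E) : inner ℂ P z = z 0 * (starRingEnd ℂ) (P 0) + z 1 * (starRingEnd ℂ) (P 1) := by
  simp [PiLp.inner_apply, Fin.sum_univ_two]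

theorem inner_P_J (P : E) : inner ℂ P (J P) = 0 := by
  rw [inner_two]; simp [J]; ring

theorem inner_J_P (P : E) : inner ℂ (J P) P = 0 := by
  rw [inner_two]; simp [J]; ring

theorem norm_J (P : E) : ‖J P‖ = ‖P‖ := by
  rw [EuclideanSpace.norm_eq, EuclideanSpace.norm_eq]
  simp [J, Fin.sum_univ_two, add_comm]

theorem decomp (P z : E) : ((‖P‖^2 : ℝ) : ℂ) • z = (inner ℂ P z : ℂ) • P + (inner ℂ (J P) z : ℂ) • J P := by
  have h : ((‖P‖^2 : ℝ) : ℂ) = P 0 * (starRingEnd ℂ) (P 0) + P 1 * (starRingEnd ℂ) (P 1) := by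
    rw [← inner_two, inner_self_eq_norm_sq_to_K]; simp
  rw [h, inner_two, inner_two]
  ext i
  fin_cases i
  · simp [J]; ring
  · simp [J]; ring

/-- the coordinate function -/
noncomputable def xf (s : ℝ) (P z : E) : ℂ := s * inner ℂ (J P) z / (1 + s ^ 2 - inner ℂ P z)

/-- points of the line through the node -/
noncomputable def node (s : ℝ) (P : E) (w : ℂ) : E := ((1 + s ^ 2 : ℝ) : ℂ)⁻¹ • (P + (w * s) • J P)

theorem one_add_sq_ne (s : ℝ) : ((1 + s ^ 2 : ℝ) : ℂ) ≠ 0 := by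
  have : (1 + s ^ 2 : ℝ) ≠ 0 := by positivity
  exact_mod_cast this

theorem inner_self_P (s : ℝ) (P : E) (hP : ‖P‖ ^ 2 = 1 + s ^ 2) : inner ℂ P P = ((1 + s ^ 2 : ℝ) : ℂ) := by
  rw [inner_self_eq_norm_sq_to_K, ← hP]; simp

theorem inner_self_J (s : ℝ) (P : E) (hP : ‖P‖ ^ 2 = 1 + s ^ 2) : inner ℂ (J P) (J P) = ((1 + s ^ 2 : ℝ) : ℂ) := by
  rw [inner_self_eq_norm_sq_to_K, norm_J, ← hP]; simp

theorem inner_P_node (s : ℝ) (P : E) (hP : ‖P‖ ^ 2 = 1 + s ^ 2) (w : ℂ) : inner ℂ P (node s P w) = 1 := by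
  rw [node, inner_smul_right, inner_add_right, inner_smul_right, inner_P_J, inner_self_P s P hP, mul_zero, add_zero,
    inv_mul_cancel₀ (one_add_sq_ne s)]

theorem inner_J_node (s : ℝ) (P : E) (hP : ‖P‖ ^ 2 = 1 + s ^ 2) (w : ℂ) : inner ℂ (J P) (node s P w) = w * s := by
  rw [node, inner_smul_right, inner_add_right, inner_smul_right, inner_J_P, inner_self_J s P hP, zero_add]
  have := one_add_sq_ne s
  field_simp

theorem norm_node_sq (s : ℝ) (P : E) (hP : ‖P‖ ^ 2 = 1 + s ^ 2) (w : ℂ) :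
    ‖node s P w‖ ^ 2 = (1 + ‖w‖ ^ 2 * s ^ 2) / (1 + s ^ 2) := by
  have h1 : inner ℂ (node s P w) (node s P w) = (((1 + ‖w‖ ^ 2 * s ^ 2) / (1 + s ^ 2) : ℝ) : ℂ) := by
    nth_rewrite 1 [node]
    rw [inner_smul_left, inner_add_left, inner_smul_left, inner_P_node s P hP, inner_J_node s P hP]
    have h2 := one_add_sq_ne s
    have h3 : (starRingEnd ℂ) w * w = ((‖w‖ ^ 2 : ℝ) : ℂ) := by
      rw [mul_comm, Complex.mul_conj, Complex.normSq_eq_norm_sq]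
    simp only [map_inv₀, Complex.conj_ofReal, map_mul]
    have : (((1 + ‖w‖ ^ 2 * s ^ 2) / (1 + s ^ 2) : ℝ) : ℂ) = ((1 + s ^ 2 : ℝ) : ℂ)⁻¹ * (1 + ((‖w‖ ^ 2 : ℝ) : ℂ) * s ^ 2) := by
      push_cast
      push_cast at h2
      field_simp
    rw [this, ← h3]
    ring
  have h4 : ((‖node s P w‖ ^ 2 : ℝ) : ℂ) = (((1 + ‖w‖ ^ 2 * s ^ 2) / (1 + s ^ 2) : ℝ) : ℂ) := by
    rw [← h1, inner_self_eq_norm_sq_to_K]; simp
  exact Complex.ofReal_injective h4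

theorem norm_inner_le (s : ℝ) (hs : 0 < s) (P : E) (hP : ‖P‖ ^ 2 = 1 + s ^ 2) (z : E) (hz : ‖z‖ ≤ 1) :
    ‖(inner ℂ P z : ℂ)‖ < 1 + s ^ 2 := by
  have h1 : ‖(inner ℂ P z : ℂ)‖ ≤ ‖P‖ * ‖z‖ := norm_inner_le_norm P z
  have h2 : ‖P‖ * ‖z‖ ≤ ‖P‖ := mul_le_of_le_one_right (norm_nonneg _) hz
  have h3 : ‖P‖ < 1 + s ^ 2 := by
    nlinarith [norm_nonneg P, sq_nonneg (‖P‖ - 1), pow_pos hs 2]
  linarith

theorem beta_re_pos (s : ℝ) (hs : 0 < s) (P : E) (hP : ‖P‖ ^ 2 = 1 + s ^ 2) (z : E) (hz : ‖z‖ ≤ 1) :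
    0 < (1 + (s:ℂ) ^ 2 - inner ℂ P z).re := by
  have h1 := norm_inner_le s hs P hP z hz
  have h2 := Complex.re_le_norm (inner ℂ P z)
  have h3 : (1 + (s:ℂ) ^ 2 - inner ℂ P z).re = 1 + s ^ 2 - (inner ℂ P z : ℂ).re := by
    have : (1 + (s:ℂ) ^ 2) = ((1 + s ^ 2 : ℝ) : ℂ) := by push_cast; ring
    rw [this, Complex.sub_re, Complex.ofReal_re]
  rw [h3]; linarith

theorem beta_ne (s : ℝ) (hs : 0 < s) (P : E) (hP : ‖P‖ ^ 2 = 1 + s ^ 2) (z : E) (hz : ‖z‖ ≤ 1) :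
    (1 + (s:ℂ) ^ 2 - inner ℂ P z) ≠ 0 := by
  intro h
  have := beta_re_pos s hs P hP z hz
  rw [h] at this
  simp at this

theorem beta_re_le (s : ℝ) (hs : 0 < s) (P : E) (hP : ‖P‖ ^ 2 = 1 + s ^ 2) (z : E) (hz : ‖z‖ ≤ 1) :
    (1 + (s:ℂ) ^ 2 - inner ℂ P z).re ≤ 2 * (1 + s ^ 2) := by
  have h1 := norm_inner_le s hs P hP z hz
  have h2 := Complex.abs_re_le_norm (inner ℂ P z)
  have h3 : (1 + (s:ℂ) ^ 2 - inner ℂ P z).re = 1 + s ^ 2 - (inner ℂ P z : ℂ).re := by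
    have : (1 + (s:ℂ) ^ 2) = ((1 + s ^ 2 : ℝ) : ℂ) := by push_cast; ring
    rw [this, Complex.sub_re, Complex.ofReal_re]
  rw [h3]
  have := (abs_le.mp h2).1
  linarith

theorem xf_node (s : ℝ) (hs : 0 < s) (P : E) (hP : ‖P‖ ^ 2 = 1 + s ^ 2) (w : ℂ) : xf s P (node s P w) = w := by
  rw [xf, inner_P_node s P hP, inner_J_node s P hP]
  have : (s:ℂ) ≠ 0 := by exact_mod_cast hs.ne'
  have h2 : (1 + (s:ℂ) ^ 2 - 1) = (s:ℂ) ^ 2 := by ring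
  rw [h2]
  field_simp

theorem node_xf (s : ℝ) (hs : 0 < s) (P : E) (hP : ‖P‖ ^ 2 = 1 + s ^ 2) (z : E) (hz : inner ℂ P z = 1) :
    node s P (xf s P z) = z := by
  have h1 := decomp P z
  rw [hP, hz, one_smul] at h1
  have hs' : (s:ℂ) ≠ 0 := by exact_mod_cast hs.ne'
  have h2 : xf s P z * s = inner ℂ (J P) z := by
    rw [xf, hz]
    have h2 : (1 + (s:ℂ) ^ 2 - 1) = (s:ℂ) ^ 2 := by ring
    rw [h2]
    field_simp
  rw [node, h2, ← h1, smul_smul, inv_mul_cancel₀ (one_add_sq_ne s), one_smul]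

theorem circle_dist (s : ℝ) (hs : 0 < s) (P : E) (hP : ‖P‖ ^ 2 = 1 + s ^ 2) (z : E) (hz : ‖z‖ ≤ 1) :
    ∃ c : ℂ, ‖c‖ = 1 ∧ ‖z - node s P c‖ ^ 2 ≤ 2 * (1 - ‖xf s P z‖) * ((1 + (s:ℂ) ^ 2 - inner ℂ P z).re / (1 + s ^ 2)) ∧
      ‖xf s P z‖ * c = xf s P z := by
  obtain ⟨c, hc, hcx⟩ : ∃ c : ℂ, ‖c‖ = 1 ∧ ‖xf s P z‖ * c = xf s P z := by
    by_cases h : xf s P z = 0
    · exact ⟨1, by simp, by rw [h]; simp⟩
    · refine ⟨xf s P z / ‖xf s P z‖, ?_, ?_⟩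
      · rw [norm_div, Complex.norm_real, norm_norm, div_self]
        exact norm_ne_zero_iff.mpr h
      · have : ((‖xf s P z‖ : ℝ) : ℂ) ≠ 0 := by exact_mod_cast norm_ne_zero_iff.mpr h
        field_simp
  refine ⟨c, hc, ?_, hcx⟩
  have hβ := beta_ne s hs P hP z hz
  have h1 : ‖node s P c‖ ^ 2 = 1 := by
    rw [norm_node_sq s P hP, hc]
    field_simp
  have h2 : ‖z - node s P c‖ ^ 2 = ‖z‖ ^ 2 - 2 * (inner ℂ (node s P c) z : ℂ).re + ‖node s P c‖ ^ 2 := by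
    rw [@norm_sub_sq ℂ]
    have : (inner ℂ z (node s P c) : ℂ).re = (inner ℂ (node s P c) z : ℂ).re := by
      rw [← inner_conj_symm, Complex.conj_re]
    simp only [RCLike.re_to_complex]
    rw [this]
  have h3 : (inner ℂ (node s P c) z : ℂ) = ((1 + s ^ 2 : ℝ) : ℂ)⁻¹ * (inner ℂ P z + ‖xf s P z‖ * (1 + (s:ℂ) ^ 2 - inner ℂ P z)) := by
    rw [node, inner_smul_left, inner_add_left, inner_smul_left]
    simp only [map_inv₀, Complex.conj_ofReal, map_mul]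
    congr 1
    congr 1
    have h4 : (starRingEnd ℂ) c * c = 1 := by
      rw [mul_comm, Complex.mul_conj, Complex.normSq_eq_norm_sq, hc]; simp
    have h5 : xf s P z * (1 + (s:ℂ) ^ 2 - inner ℂ P z) = s * inner ℂ (J P) z := by
      rw [xf]; field_simp
    have h6 : (starRingEnd ℂ) c * xf s P z = ‖xf s P z‖ := by
      rw [← hcx, norm_mul, hc, mul_one, Complex.norm_real, norm_norm]
      linear_combination ((‖xf s P z‖ : ℝ) : ℂ) * h4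
    rw [← h6]
    linear_combination (-(starRingEnd ℂ) c) * h5
  have h4 : (inner ℂ (node s P c) z : ℂ).re = 1 - (1 - ‖xf s P z‖) * ((1 + (s:ℂ) ^ 2 - inner ℂ P z).re / (1 + s ^ 2)) := by
    have h5 : (inner ℂ (node s P c) z : ℂ) = 1 - (((1 - ‖xf s P z‖) / (1 + s ^ 2) : ℝ) : ℂ) * (1 + (s:ℂ) ^ 2 - inner ℂ P z) := by
      rw [h3]
      have := one_add_sq_ne s
      push_cast at this ⊢
      field_simp
      ring
    rw [h5, Complex.sub_re, Complex.re_ofReal_mul, Complex.one_re]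
    ring
  rw [h2, h1, h4]
  have h7 : ‖z‖ ^ 2 ≤ 1 := by
    have := norm_nonneg z
    nlinarith
  linarith

theorem xf_le_one (s : ℝ) (hs : 0 < s) (P : E) (hP : ‖P‖ ^ 2 = 1 + s ^ 2) (z : E) (hz : ‖z‖ ≤ 1) :
    ‖xf s P z‖ ≤ 1 := by
  obtain ⟨c, hc, h, -⟩ := circle_dist s hs P hP z hz
  have h1 : 0 < (1 + (s:ℂ) ^ 2 - inner ℂ P z).re / (1 + s ^ 2) := by
    have := beta_re_pos s hs P hP z hz
    positivity
  by_contra hcon
  push Not at hcon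
  have h2 : 0 ≤ ‖z - node s P c‖ ^ 2 := by positivity
  have h3 : 2 * (1 - ‖xf s P z‖) * ((1 + (s:ℂ) ^ 2 - inner ℂ P z).re / (1 + s ^ 2)) < 0 := by
    apply mul_neg_of_neg_of_pos _ h1
    linarith
  linarith

theorem inner_of_xf_eq_one (s : ℝ) (hs : 0 < s) (P : E) (hP : ‖P‖ ^ 2 = 1 + s ^ 2) (z : E) (hz : ‖z‖ ≤ 1)
    (hx : ‖xf s P z‖ = 1) : inner ℂ P z = 1 := by
  obtain ⟨c, hc, h, -⟩ := circle_dist s hs P hP z hz
  rw [hx, sub_self, mul_zero, zero_mul] at h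
  have h1 : ‖z - node s P c‖ = 0 := by
    have : 0 ≤ ‖z - node s P c‖ := norm_nonneg _
    nlinarith
  have h2 : z = node s P c := by
    rwa [norm_eq_zero, sub_eq_zero] at h1
  rw [h2, inner_P_node s P hP]

/-- points of the closed ball on the line of `P` are close to `P` -/
theorem dist_line (s : ℝ) (P : E) (hP : ‖P‖ ^ 2 = 1 + s ^ 2) (z : E)
    (hz1 : inner ℂ P z = 1) : ‖z - P‖ ^ 2 = ‖z‖ ^ 2 - 1 + s ^ 2 := by
  rw [@norm_sub_sq ℂ, hP]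
  have : (inner ℂ z P : ℂ) = 1 := by
    rw [← inner_conj_symm, hz1]; simp
  rw [this]
  simp only [RCLike.re_to_complex, Complex.one_re]
  ring

theorem dist_node_le (s : ℝ) (hs : 0 < s) (P : E) (hP : ‖P‖ ^ 2 = 1 + s ^ 2) (z : E) (hz : ‖z‖ ≤ 1) :
    ‖z - P‖ ≤ 2 * √(1 - ‖xf s P z‖) + s := by
  obtain ⟨c, hc, h, -⟩ := circle_dist s hs P hP z hz
  have hx := xf_le_one s hs P hP z hz
  have h1 : (1 + (s:ℂ) ^ 2 - inner ℂ P z).re / (1 + s ^ 2) ≤ 2 := by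
    rw [div_le_iff₀ (by positivity)]
    exact beta_re_le s hs P hP z hz
  have h2 : ‖z - node s P c‖ ^ 2 ≤ (2 * √(1 - ‖xf s P z‖)) ^ 2 := by
    rw [mul_pow, Real.sq_sqrt (by linarith)]
    have : 2 * (1 - ‖xf s P z‖) * ((1 + (s:ℂ) ^ 2 - inner ℂ P z).re / (1 + s ^ 2)) ≤ 2 * (1 - ‖xf s P z‖) * 2 := by
      apply mul_le_mul_of_nonneg_left h1
      linarith
    linarith
  have h3 : ‖z - node s P c‖ ≤ 2 * √(1 - ‖xf s P z‖) := by
    apply le_of_sq_le_sq _ (by positivity)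
    exact h2
  have h4 : ‖node s P c - P‖ ^ 2 ≤ s ^ 2 := by
    rw [dist_line s P hP _ (inner_P_node s P hP c), norm_node_sq s P hP, hc]
    have : (1 + (1:ℝ) ^ 2 * s ^ 2) / (1 + s ^ 2) = 1 := by
      field_simp
    rw [this]; linarith
  have h5 : ‖node s P c - P‖ ≤ s := by
    apply le_of_sq_le_sq h4 hs.le
  calc ‖z - P‖ = ‖(z - node s P c) + (node s P c - P)‖ := by congr 1; abel
    _ ≤ ‖z - node s P c‖ + ‖node s P c - P‖ := norm_add_le _ _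
    _ ≤ _ := by linarith

end Pool.Agent.Helper233.BA
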