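import Pool.Agent.Helper233.BA.NotZ
set_option autoImplicit false
namespace Pool.Agent.Helper233.BA
open Finset Filter Topology Metric

noncomputable def PP (m : ℕ) (z : E) : ℂ := Psi (nn m) (RR m (nn m)) (stt m).s (stt m).F z

noncomputable def AA (M k : ℕ) (z : E) : ℂ := ∏ i ∈ range k, PP (M+i) z

theorem AA_succ (M k : ℕ) (z : E) : AA M (k+1) z = AA M k z * PP (M+k) z := by
  rw [AA, Finset.prod_range_succ]; rfl

theorem AA_le (M k : ℕ) (z : E) : ‖AA M (k+1) z‖ ≤ (stt (M+(k+1))).h z := by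
  have hh : ∀ m, (stt (m+1)).h z = ‖PP m z‖ * max ((stt m).h z) 1 := fun m => rfl
  induction k with
  | zero =>
    rw [AA_succ, hh]
    simp only [AA, Finset.range_zero, Finset.prod_empty, one_mul, add_zero]
    exact le_mul_of_one_le_right (norm_nonneg _) (le_max_right _ _)
  | succ k ih =>
    rw [AA_succ, norm_mul, mul_comm, show M + (k+1+1) = (M + (k+1)) + 1 by ring, hh]
    exact mul_le_mul_of_nonneg_left (ih.trans (le_max_left _ _)) (norm_nonneg _)

theorem AA_diff (M k : ℕ) (z : E) (hz : z ∈ closedBall (0:E) 1) :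
    ‖AA M (k+2) z - AA M (k+1) z‖ ≤ (1/2) ^ k := by
  have h1 : AA M (k+2) z - AA M (k+1) z = AA M (k+1) z * (PP (M+(k+1)) z - 1) := by
    rw [show k + 2 = (k+1) + 1 by ring, AA_succ]; ring
  rw [h1, norm_mul]
  calc ‖AA M (k+1) z‖ * ‖PP (M+(k+1)) z - 1‖ ≤ (stt (M+(k+1))).h z * ‖PP (M+(k+1)) z - 1‖ :=
        mul_le_mul_of_nonneg_right (AA_le M k z) (norm_nonneg _)
    _ ≤ (1/2) ^ (M+(k+1)) := (good_nn (M+(k+1))).2.2.1 z hz
    _ ≤ (1/2) ^ k := pow_le_pow_of_le_one (by norm_num) (by norm_num) (by omega)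

theorem PP_contOn (m : ℕ) : ContinuousOn (PP m) (closedBall 0 1) :=
  Psi_contOn _ _ _ (s_pos m) _ (inv_stt m).norm

theorem PP_diffOn (m : ℕ) : DifferentiableOn ℂ (PP m) (closedBall 0 1) :=
  Psi_diffOn _ _ _ (s_pos m) _ (inv_stt m).norm

theorem AA_contOn (M k : ℕ) : ContinuousOn (AA M k) (closedBall 0 1) := by
  unfold AA
  apply continuousOn_finsetProd
  intro i _
  exact PP_contOn _

theorem AA_diffOn (M k : ℕ) : DifferentiableOn ℂ (AA M k) (closedBall 0 1) := by
  induction k with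
  | zero => unfold AA; simp only [Finset.range_zero, Finset.prod_empty]; exact differentiableOn_const _
  | succ k ih =>
    have : AA M (k+1) = fun z => AA M k z * PP (M+k) z := by funext z; exact AA_succ M k z
    rw [this]
    exact ih.fun_mul (PP_diffOn _)

/-- limit function -/
noncomputable def GG (M : ℕ) (z : E) : ℂ := AA M 1 z + ∑' k : ℕ, (AA M (k+2) z - AA M (k+1) z)

theorem half_summable : Summable (fun k : ℕ => (1/2 : ℝ) ^ k) :=
  summable_geometric_of_lt_one (by norm_num) (by norm_num)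

theorem GG_contOn (M : ℕ) : ContinuousOn (GG M) (closedBall 0 1) := by
  unfold GG
  apply (AA_contOn M 1).add
  exact continuousOn_tsum (fun k => (AA_contOn M (k+2)).sub (AA_contOn M (k+1))) half_summable
    (fun k z hz => AA_diff M k z hz)

theorem GG_tendsto (M : ℕ) (z : E) (hz : z ∈ closedBall (0:E) 1) :
    Tendsto (fun k => AA M (k+1) z) atTop (𝓝 (GG M z)) := by
  have hs : Summable (fun k : ℕ => (AA M (k+2) z - AA M (k+1) z)) :=
    Summable.of_norm_bounded half_summable (fun k => AA_diff M k z hz)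
  have h1 := hs.hasSum.tendsto_sum_nat
  have h2 := h1.const_add (AA M 1 z)
  refine h2.congr (fun k => ?_)
  have := Finset.sum_range_sub (fun k => AA M (k+1) z) k
  rw [this]; ring

theorem cauchy_fderiv (g : E → ℂ) (hg : DifferentiableOn ℂ g (ball 0 1)) (C : ℝ) (hC0 : 0 ≤ C)
    (hC : ∀ z ∈ ball (0:E) 1, ‖g z‖ ≤ C)
    (ρ : ℝ) (hρ : ρ < 1) (y : E) (hy : ‖y‖ < ρ) : ‖fderiv ℂ g y‖ ≤ C / (1 - ρ) := by
  have h1ρ : 0 < 1 - ρ := by linarith
  apply ContinuousLinearMap.opNorm_le_bound _ (by positivity)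
  intro v
  by_cases hv : v = 0
  · rw [hv]; simp
  · have hvn : 0 < ‖v‖ := norm_pos_iff.mpr hv
    have hyb : y ∈ ball (0:E) 1 := by rw [mem_ball_zero_iff]; linarith
    set r : ℝ := (1 - ρ) / ‖v‖ with hr
    have hrpos : 0 < r := by positivity
    set φ : ℂ → ℂ := fun t => g (y + t • v) with hφ
    have hmem : ∀ t ∈ closedBall (0:ℂ) r, y + t • v ∈ ball (0:E) 1 := by
      intro t ht
      rw [mem_closedBall_zero_iff] at ht
      rw [mem_ball_zero_iff]
      calc ‖y + t • v‖ ≤ ‖y‖ + ‖t • v‖ := norm_add_le _ _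
        _ = ‖y‖ + ‖t‖ * ‖v‖ := by rw [norm_smul]
        _ ≤ ‖y‖ + r * ‖v‖ := by
          have := mul_le_mul_of_nonneg_right ht hvn.le
          linarith
        _ = ‖y‖ + (1 - ρ) := by rw [hr, div_mul_cancel₀ _ hvn.ne']
        _ < 1 := by linarith
    have hline : Differentiable ℂ (fun t : ℂ => y + t • v) := (differentiable_id.smul_const v).const_add y
    have hφd : DifferentiableOn ℂ φ (closedBall 0 r) :=
      DifferentiableOn.comp (g := g) hg hline.differentiableOn hmem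
    have hdc : DiffContOnCl ℂ φ (ball 0 r) :=
      (hφd.mono (by rw [closure_ball _ hrpos.ne'])).diffContOnCl
    have hb := Complex.norm_deriv_le_of_forall_mem_sphere_norm_le hrpos hdc
      (fun t ht => hC _ (hmem t (sphere_subset_closedBall ht)))
    have hder : deriv φ 0 = fderiv ℂ g y v := by
      have h2 : HasFDerivAt g (fderiv ℂ g y) y := (hg.differentiableAt (isOpen_ball.mem_nhds hyb)).hasFDerivAt
      have h3 : HasDerivAt (fun t : ℂ => y + t • v) v 0 := by
        have := ((hasDerivAt_id (0:ℂ)).smul_const v).const_add y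
        simpa using this
      have h4 : y = y + (0:ℂ) • v := by simp
      rw [h4] at h2
      have h5 := h2.comp_hasDerivAt (0:ℂ) h3
      rw [← h4] at h5
      exact h5.deriv
    rw [hder] at hb
    calc ‖fderiv ℂ g y v‖ ≤ C / r := hb
      _ = C / (1 - ρ) * ‖v‖ := by rw [hr]; field_simp

theorem GG_diffOn (M : ℕ) : DifferentiableOn ℂ (GG M) (ball 0 1) := by
  intro x hx
  rw [mem_ball_zero_iff] at hx
  set ρ : ℝ := (1 + ‖x‖) / 2 with hρ
  have hρ1 : ρ < 1 := by rw [hρ]; linarith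
  have hxρ : ‖x‖ < ρ := by rw [hρ]; linarith
  have hρ0 : 0 < ρ := (norm_nonneg x).trans_lt hxρ
  have hsub : ball (0:E) ρ ⊆ ball 0 1 := ball_subset_ball hρ1.le
  have hd : ∀ k : ℕ, DifferentiableOn ℂ (fun z => AA M (k+2) z - AA M (k+1) z) (ball 0 1) := fun k =>
    ((AA_diffOn M (k+2)).sub (AA_diffOn M (k+1))).mono ball_subset_closedBall
  have hsum : Summable (fun k : ℕ => (1/2 : ℝ) ^ k / (1 - ρ)) := half_summable.div_const _
  have hx0 : (0:E) ∈ ball (0:E) ρ := mem_ball_self hρ0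
  have key := hasFDerivAt_tsum_of_isPreconnected (𝕜 := ℂ) (f := fun (k : ℕ) (z : E) => AA M (k+2) z - AA M (k+1) z)
    (f' := fun k z => fderiv ℂ (fun z => AA M (k+2) z - AA M (k+1) z) z) hsum (isOpen_ball (x := (0:E)) (ε := ρ))
    (convex_ball (0:E) ρ).isPreconnected
    (fun k y hy => ((hd k).differentiableAt (isOpen_ball.mem_nhds (hsub hy))).hasFDerivAt)
    (fun k y hy => cauchy_fderiv _ (hd k) _ (by positivity) (fun z hz => AA_diff M k z (ball_subset_closedBall hz)) ρ hρ1 y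
      (by simpa using hy)) hx0
    (Summable.of_norm_bounded half_summable (fun k => AA_diff M k 0 (by simp)))
    (show x ∈ ball (0:E) ρ by simpa using hxρ)
  have h1 : DifferentiableAt ℂ (AA M 1) x :=
    ((AA_diffOn M 1).mono ball_subset_closedBall).differentiableAt (isOpen_ball.mem_nhds (by simpa using hx))
  exact (h1.add key.differentiableAt).differentiableWithinAt

theorem GG_zero (M : ℕ) (x : E) (hx : x ∈ KK) : GG M x = 0 := by
  have hxs : x ∈ closedBall (0:E) 1 := sphere_subset_closedBall (KK_sphere hx)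
  choose Q hQ hd using hx
  set zc : ℕ → E := fun j => node (stt (M+j+1)).s (Q (M+j+1)) 0 with hzc
  have hn : ∀ j, ‖Q (M+j+1)‖ ^ 2 = 1 + (stt (M+j+1)).s ^ 2 := fun j => (inv_stt _).norm _ (hQ _)
  have hzlt : ∀ j, ‖zc j‖ < 1 := fun j => norm_node_lt _ (s_pos _) _ (hn j) 0 (by simp)
  have hin : ∀ j, inner ℂ (Q (M+j+1)) (zc j) = 1 := fun j => inner_P_node _ _ (hn j) 0
  have hP : ∀ j, PP (M+j) (zc j) = 0 := by
    intro j
    exact Psi_zero (nn (M+j)) (good_nn _).1 _ _ (s_pos _) _ (inv_stt _).norm (Q (M+j+1)) (hQ (M+j+1)) (zc j) (hzlt j).le (hin j)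
  have hA : ∀ j k, j + 1 ≤ k → AA M k (zc j) = 0 := by
    intro j k hk
    rw [AA]
    exact Finset.prod_eq_zero (Finset.mem_range.mpr (by omega : j < k)) (hP j)
  have hG : ∀ j, GG M (zc j) = 0 := by
    intro j
    have h1 := GG_tendsto M (zc j) (by simpa using (hzlt j).le)
    have h2 : Tendsto (fun k => AA M (k+1) (zc j)) atTop (𝓝 0) := by
      apply tendsto_const_nhds.congr'
      filter_upwards [eventually_ge_atTop j] with k hk
      rw [hA j (k+1) (by omega)]
    exact tendsto_nhds_unique h1 h2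
  have hlim : Tendsto zc atTop (𝓝 x) := by
    rw [tendsto_iff_norm_sub_tendsto_zero]
    have h1 : ∀ j, ‖zc j - x‖ ≤ 4 * (stt (M+j+1)).s := by
      intro j
      have h2 : ‖zc j - Q (M+j+1)‖ ≤ (stt (M+j+1)).s := by
        apply le_of_sq_le_sq _ (s_pos _).le
        rw [dist_line _ _ (hn j) _ (hin j)]
        nlinarith [hzlt j, norm_nonneg (zc j)]
      have h3 := hd (M+j+1)
      rw [← norm_neg, neg_sub] at h3
      calc ‖zc j - x‖ = ‖(zc j - Q (M+j+1)) + (Q (M+j+1) - x)‖ := by congr 1; abel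
        _ ≤ ‖zc j - Q (M+j+1)‖ + ‖Q (M+j+1) - x‖ := norm_add_le _ _
        _ ≤ _ := by linarith
    have h4 : Tendsto (fun j => 4 * (stt (M+j+1)).s) atTop (𝓝 (4 * 0)) := by
      apply Tendsto.const_mul
      apply s_tendsto.comp
      apply tendsto_atTop_atTop.mpr
      intro b
      exact ⟨b, fun a ha => by omega⟩
    rw [mul_zero] at h4
    exact squeeze_zero (fun j => norm_nonneg _) h1 h4
  have h1 : Tendsto (fun j => GG M (zc j)) atTop (𝓝 (GG M x)) := by
    have h2 : Tendsto zc atTop (𝓝[closedBall (0:E) 1] x) := by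
      rw [tendsto_nhdsWithin_iff]
      exact ⟨hlim, Filter.Eventually.of_forall (fun j => by simpa using (hzlt j).le)⟩
    exact (GG_contOn M x hxs).tendsto.comp h2
  simp only [hG] at h1
  exact tendsto_nhds_unique h1 tendsto_const_nhds |>.symm ▸ rfl

theorem GG_ne (z : E) (hz : z ∈ closedBall (0:E) 1) (hzK : z ∉ KK) : ∃ M, GG M z ≠ 0 := by
  have h0 : ∃ m0, ∀ Q ∈ (stt m0).F, 3 * (stt m0).s < ‖z - Q‖ := by
    by_contra h
    push Not at h
    exact hzK h
  obtain ⟨m0, hm0⟩ := h0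
  obtain ⟨Q0, hQ0, hmin⟩ := (stt m0).F.exists_min_image (fun Q => ‖z - Q‖) (inv_stt m0).ne
  set τ : ℝ := ‖z - Q0‖ - 3 * (stt m0).s with hτ
  have hτpos : 0 < τ := by have := hm0 Q0 hQ0; rw [hτ]; linarith
  have hfar : ∀ k, ∀ P ∈ (stt (m0+k)).F, τ ≤ ‖z - P‖ := by
    intro k P hP
    obtain ⟨Q, hQ, hd⟩ := ancestor m0 k P hP
    have h1 := hmin Q hQ
    have h2 := s_pos (m0+k)
    have h3 : ‖z - Q‖ ≤ ‖z - P‖ + ‖P - Q‖ := by
      calc ‖z - Q‖ = ‖(z - P) + (P - Q)‖ := by congr 1; abel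
        _ ≤ _ := norm_add_le _ _
    linarith
  have hz1 : ‖z‖ ≤ 1 := by simpa using hz
  have hev : ∀ᶠ m in atTop, ‖PP m z - 1‖ ≤ (1/2) ^ (m+2) := by
    have e1 : ∀ᶠ m in atTop, (stt m).s ≤ τ / 2 := s_tendsto.eventually_le_const (by linarith)
    have e2 : ∀ᶠ m : ℕ in atTop, (1/2 : ℝ) ^ (m+1) ≤ τ ^ 2 / 16 := by
      have h1 : Tendsto (fun m : ℕ => (1/2 : ℝ) ^ (m+1)) atTop (𝓝 0) :=
        (tendsto_pow_atTop_nhds_zero_of_lt_one (by norm_num) (by norm_num)).comp (tendsto_add_atTop_nat 1)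
      exact h1.eventually_le_const (by positivity)
    filter_upwards [e1, e2, eventually_ge_atTop m0] with m h1 h2 h3
    apply (good_nn m).2.2.2 z hz
    intro P hP
    obtain ⟨k, rfl⟩ := Nat.exists_eq_add_of_le h3
    have h4 := hfar k P hP
    have h5 := dist_node_le _ (s_pos (m0+k)) P ((inv_stt (m0+k)).norm P hP) z hz1
    have h6 := xf_le_one _ (s_pos (m0+k)) P ((inv_stt (m0+k)).norm P hP) z hz1
    have h7 : τ / 4 ≤ √(1 - ‖xf (stt (m0+k)).s P z‖) := by linarith
    have h8 : (τ / 4) ^ 2 ≤ 1 - ‖xf (stt (m0+k)).s P z‖ := by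
      rw [← Real.sq_sqrt (show 0 ≤ 1 - ‖xf (stt (m0+k)).s P z‖ by linarith)]
      exact pow_le_pow_left₀ (by positivity) h7 2
    nlinarith
  obtain ⟨M, hM⟩ := eventually_atTop.mp hev
  refine ⟨M, ?_⟩
  have hlow : ∀ k, 1/2 + (1/2 : ℝ) ^ (k+1) ≤ ‖AA M k z‖ := by
    intro k
    induction k with
    | zero => simp only [AA, Finset.range_zero, Finset.prod_empty, norm_one]; norm_num
    | succ k ih =>
      rw [AA_succ, norm_mul]
      have h1 := hM (M+k) (by omega)
      have h2 : 1 - (1/2 : ℝ) ^ (M+k+2) ≤ ‖PP (M+k) z‖ := by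
        have := norm_sub_norm_le (1:ℂ) (1 - PP (M+k) z)
        rw [sub_sub_cancel, norm_one, ← norm_neg (1 - PP (M+k) z), neg_sub] at this
        linarith
      have h3 : (1/2 : ℝ) ^ (M+k+2) ≤ (1/2) ^ (k+2) := pow_le_pow_of_le_one (by norm_num) (by norm_num) (by omega)
      have h4 : (1/2 : ℝ) ^ (k+1) = 2 * (1/2) ^ (k+2) := by ring
      have h5 : (1/2 : ℝ) ^ (k+1+1) = (1/2) ^ (k+2) := by ring
      have h6 : 0 < (1/2 : ℝ) ^ (k+2) := by positivity
      have h7 : (1/2 : ℝ) ^ (k+2) ≤ 1/4 := by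
        calc (1/2 : ℝ) ^ (k+2) ≤ (1/2) ^ 2 := pow_le_pow_of_le_one (by norm_num) (by norm_num) (by omega)
          _ = 1/4 := by norm_num
      set y := (1/2 : ℝ) ^ (k+2) with hy
      rw [h5]
      rw [h4] at ih
      have h8 : 1 - y ≤ ‖PP (M+k) z‖ := by linarith
      calc 1/2 + y ≤ (1/2 + 2 * y) * (1 - y) := by nlinarith
        _ ≤ ‖AA M k z‖ * ‖PP (M+k) z‖ := mul_le_mul ih h8 (by linarith) (norm_nonneg _)
  have h1 := (GG_tendsto M z hz).norm
  have h2 : 1/2 ≤ ‖GG M z‖ := by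
    apply ge_of_tendsto' h1
    intro k
    have := hlow (k+1)
    have h6 : 0 < (1/2 : ℝ) ^ (k+1+1) := by positivity
    linarith
  intro h
  rw [h, norm_zero] at h2
  norm_num at h2

end Pool.Agent.Helper233.BA
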