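import Pool.Agent.Helper233.BA.Constr
set_option autoImplicit false
namespace Pool.Agent.Helper233.BA
open Finset Filter Topology Metric

noncomputable def nn (m : ℕ) : ℕ := pick m (stt m)

theorem good_nn (m : ℕ) : Good m (stt m) (nn m) := pick_good m _ (inv_stt m)

theorem s_pos (m : ℕ) : 0 < (stt m).s := (inv_stt m).s_pos

theorem s_succ (m : ℕ) : (stt (m+1)).s ≤ (stt m).s / 4 :=
  sig_le _ _ (RR_gt m _ (good_nn m).1) (s_pos m) (good_nn m).2.1

theorem s_le (m : ℕ) : (stt m).s ≤ (1/4) ^ m := by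
  induction m with
  | zero => norm_num [stt]
  | succ m ih =>
    have := s_succ m
    rw [pow_succ]
    linarith

theorem s_tendsto : Tendsto (fun m => (stt m).s) atTop (𝓝 0) := by
  apply squeeze_zero (fun m => (s_pos m).le) s_le
  exact tendsto_pow_atTop_nhds_zero_of_lt_one (by norm_num) (by norm_num)

theorem ancestor (j k : ℕ) : ∀ P ∈ (stt (j+k)).F, ∃ Q ∈ (stt j).F, ‖P - Q‖ ≤ 3 * (stt j).s - 3 * (stt (j+k)).s := by
  induction k with
  | zero => intro P hP; exact ⟨P, hP, by simp⟩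
  | succ k ih =>
    intro P hP
    have hP' : P ∈ children (nn (j+k)) (RR (j+k) (nn (j+k))) (stt (j+k)).s (stt (j+k)).F := hP
    obtain ⟨P1, hP1, i, hi, rfl⟩ := (mem_children _ _ _ _ _).mp hP'
    obtain ⟨Q, hQ, hd⟩ := ih P1 hP1
    refine ⟨Q, hQ, ?_⟩
    have h1 := dist_child (nn (j+k)) (RR (j+k) (nn (j+k))) (stt (j+k)).s (RR_gt _ _ (good_nn _).1) (s_pos _) P1
      ((inv_stt (j+k)).norm P1 hP1) i
    have h2 : (stt (j+(k+1))).s = sig (RR (j+k) (nn (j+k))) (stt (j+k)).s := rfl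
    have h3 : (stt (j+(k+1))).s ≤ (stt (j+k)).s / 4 := s_succ (j+k)
    have h4 := s_pos (j+k)
    set X := node (stt (j+k)).s P1 ((RR (j+k) (nn (j+k)) : ℂ) * om (nn (j+k)) ^ i)
    calc ‖X - Q‖ = ‖(X - P1) + (P1 - Q)‖ := by congr 1; abel
      _ ≤ ‖X - P1‖ + ‖P1 - Q‖ := norm_add_le _ _
      _ ≤ _ := by rw [h2] at h3 ⊢; linarith

/-- The compact set. -/
def KK : Set E := {x | ∀ m, ∃ Q ∈ (stt m).F, ‖x - Q‖ ≤ 3 * (stt m).s}

theorem KK_closed_level (m : ℕ) : IsClosed {x : E | ∃ Q ∈ (stt m).F, ‖x - Q‖ ≤ 3 * (stt m).s} := by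
  have : {x : E | ∃ Q ∈ (stt m).F, ‖x - Q‖ ≤ 3 * (stt m).s} = ⋃ Q ∈ (stt m).F, closedBall Q (3 * (stt m).s) := by
    ext x; simp [dist_eq_norm]
  rw [this]
  exact isClosed_biUnion_finset (fun Q _ => isClosed_closedBall)

theorem KK_closed : IsClosed KK := by
  have : KK = ⋂ m, {x : E | ∃ Q ∈ (stt m).F, ‖x - Q‖ ≤ 3 * (stt m).s} := by
    ext x; simp [KK]
  rw [this]
  exact isClosed_iInter KK_closed_level

theorem norm_node_bounds (m : ℕ) (Q : E) (hQ : Q ∈ (stt m).F) : 1 ≤ ‖Q‖ ∧ ‖Q‖ ≤ 1 + (stt m).s := by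
  have h1 := (inv_stt m).norm Q hQ
  have h2 := s_pos m
  have h3 := norm_nonneg Q
  constructor
  · by_contra h
    push Not at h
    nlinarith
  · by_contra h
    push Not at h
    nlinarith

theorem KK_sphere : KK ⊆ sphere (0:E) 1 := by
  intro x hx
  rw [mem_sphere_zero_iff_norm]
  have h1 : ∀ m, |‖x‖ - 1| ≤ 4 * (stt m).s := by
    intro m
    obtain ⟨Q, hQ, hd⟩ := hx m
    have h2 := norm_node_bounds m Q hQ
    have h3 := abs_norm_sub_norm_le x Q
    have h4 := s_pos m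
    have h5 := abs_le.mp (h3.trans hd)
    rw [abs_le]
    constructor <;> linarith [h5.1, h5.2]
  have h2 : Tendsto (fun m => 4 * (stt m).s) atTop (𝓝 (4 * 0)) := s_tendsto.const_mul 4
  rw [mul_zero] at h2
  have h3 : |‖x‖ - 1| ≤ 0 := ge_of_tendsto' h2 h1
  have h4 := abs_nonpos_iff.mp h3
  linarith

theorem KK_compact : IsCompact KK := (isCompact_sphere (0:E) 1).of_isClosed_subset KK_closed KK_sphere

theorem norm_node_lt (s : ℝ) (hs : 0 < s) (P : E) (hP : ‖P‖ ^ 2 = 1 + s ^ 2) (w : ℂ) (hw : ‖w‖ < 1) :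
    ‖node s P w‖ < 1 := by
  have h := norm_node_sq s P hP w
  have h1 : ‖node s P w‖ ^ 2 < 1 := by
    rw [h, div_lt_one (by positivity)]
    have : ‖w‖ ^ 2 < 1 := by nlinarith [norm_nonneg w]
    have : 0 < s ^ 2 := by positivity
    nlinarith
  nlinarith [norm_nonneg (node s P w)]

theorem node_diff (s : ℝ) (P : E) : Differentiable ℂ (fun w : ℂ => node s P w) := by
  unfold node
  have : Differentiable ℂ (fun w : ℂ => (w * s) • J P) := by
    apply Differentiable.smul_const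
    fun_prop
  exact Differentiable.const_smul (this.const_add P) (((1 + s ^ 2 : ℝ) : ℂ)⁻¹)

theorem branch (f : E → ℂ) (hd : DifferentiableOn ℂ f (ball 0 1)) (hne : ∀ z ∈ ball (0:E) 1, f z ≠ 0)
    (C : ℝ) (hC : ∀ z ∈ ball (0:E) 1, ‖f z‖ < C) (m : ℕ) :
    ∃ P ∈ (stt m).F, ∃ q : E, ‖q‖ < 1 ∧ inner ℂ P q = 1 ∧ ‖xf (stt m).s P q‖ ≤ 1 / 2 ∧
      Real.log (C / ‖f q‖) ≤ (2 - (1/2) ^ m) * Real.log (C / ‖f (node (3/4) P0 0)‖) := by
  have hP0 : ‖P0‖ ^ 2 = 1 + (3/4 : ℝ) ^ 2 := by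
    have := (inv_stt 0).norm P0 (by simp [stt])
    exact this
  have hq0 : ‖node (3/4) P0 0‖ < 1 := norm_node_lt _ (by norm_num) P0 hP0 0 (by simp)
  have hu0 : 0 ≤ Real.log (C / ‖f (node (3/4) P0 0)‖) := by
    apply Real.log_nonneg
    have h1 := hne _ (by simpa using hq0 : node (3/4) P0 0 ∈ ball (0:E) 1)
    rw [le_div_iff₀ (norm_pos_iff.mpr h1), one_mul]
    exact (hC _ (by simpa using hq0)).le
  induction m with
  | zero =>
    refine ⟨P0, by simp [stt], node (3/4) P0 0, hq0, inner_P_node _ P0 hP0 0, ?_, ?_⟩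
    · have : xf (stt 0).s P0 (node (3/4) P0 0) = 0 := xf_node (3/4) (by norm_num) P0 hP0 0
      rw [this]; norm_num
    · norm_num
  | succ m ih =>
    obtain ⟨P, hP, q, hq, hPq, hx, hlog⟩ := ih
    set s := (stt m).s with hs_def
    have hs : 0 < s := s_pos m
    have hPn : ‖P‖ ^ 2 = 1 + s ^ 2 := (inv_stt m).norm P hP
    obtain ⟨hn, hR2, -, -⟩ := good_nn m
    set R := RR m (nn m) with hR_def
    have hR : 1 < R := RR_gt m _ hn
    have hRpos : 0 < R := by linarith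
    have hR4 : R ≤ 2 := by nlinarith
    set g : ℂ → ℂ := fun w => f (node s P w) with hg
    have hmem : ∀ w ∈ ball (0:ℂ) 1, node s P w ∈ ball (0:E) 1 := by
      intro w hw
      rw [mem_ball_zero_iff] at hw ⊢
      exact norm_node_lt s hs P hPn w hw
    have hgd : DifferentiableOn ℂ g (ball 0 1) :=
      DifferentiableOn.comp (g := f) hd (node_diff s P).differentiableOn hmem
    have htt : tt m ≤ 1/2 := by
      unfold tt
      calc (1/2 : ℝ) ^ (m+4) ≤ (1/2) ^ 1 := pow_le_pow_of_le_one (by norm_num) (by norm_num) (by omega)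
        _ = 1/2 := by norm_num
    have hζ : ‖xf s P q‖ ≤ R⁻¹ := by
      refine hx.trans ?_
      rw [le_inv_comm₀ (by norm_num) hRpos]
      norm_num; exact hR4
    obtain ⟨k, hk, hkl⟩ := disc_step g hgd (fun w hw => hne _ (hmem w hw)) C (fun w hw => hC _ (hmem w hw))
      (nn m) hn (tt m) (tt_pos m) htt R rfl (xf s P q) hζ
    set P' := node s P ((R:ℂ) * om (nn m) ^ k) with hP'
    set q' := node s P (((R⁻¹ : ℝ) : ℂ) * om (nn m) ^ k) with hq'
    have hwn : ‖((R⁻¹ : ℝ) : ℂ) * om (nn m) ^ k‖ = R⁻¹ := norm_w _ _ (by positivity) k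
    have hP'F : P' ∈ (stt (m+1)).F := (mem_children _ _ _ _ _).mpr ⟨P, hP, k, hk, rfl⟩
    have hP'n := (inv_stt (m+1)).norm P' hP'F
    have hs' : (stt (m+1)).s = sig R s := rfl
    have hs'pos := s_pos (m+1)
    have hr1 : R⁻¹ < 1 := inv_lt_one_of_one_lt₀ hR
    have hq'lt : ‖q'‖ < 1 := norm_node_lt s hs P hPn _ (by rw [hwn]; exact hr1)
    have hin : inner ℂ P' q' = 1 := by
      rw [hP', inner_node, hq', inner_P_node s P hPn, inner_J_node s P hPn]
      have h3 : (starRingEnd ℂ) (om (nn m) ^ k) * om (nn m) ^ k = 1 := by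
        rw [mul_comm, Complex.mul_conj, Complex.normSq_eq_norm_sq, norm_pow, norm_om]; simp
      have h4 : (R:ℂ) * ((R⁻¹ : ℝ) : ℂ) = 1 := by
        rw [← Complex.ofReal_mul, mul_inv_cancel₀ hRpos.ne']; simp
      rw [map_mul, Complex.conj_ofReal, inv_mul_eq_iff_eq_mul₀ (one_add_sq_ne s)]
      push_cast at h4 ⊢
      linear_combination (s:ℂ) ^ 2 * (starRingEnd ℂ) (om (nn m) ^ k) * om (nn m) ^ k * h4 + (s:ℂ) ^ 2 * h3
    refine ⟨P', hP'F, q', hq'lt, hin, ?_, ?_⟩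
    · -- coordinate bound
      have h1 := node_xf (stt (m+1)).s hs'pos P' hP'n q' hin
      have h2 := norm_node_sq (stt (m+1)).s P' hP'n (xf (stt (m+1)).s P' q')
      rw [h1, hq', norm_node_sq s P hPn, hwn, hs', sig_sq R s hR] at h2
      set X := ‖xf (sig R s) P' (node s P (((R⁻¹ : ℝ) : ℂ) * om (nn m) ^ k))‖ with hX
      have h3 : X ^ 2 = (1 - (R⁻¹) ^ 2) / (1 + s ^ 2) := by
        have hR21 : R ^ 2 - 1 ≠ 0 := by nlinarith
        have hs0 : s ≠ 0 := hs.ne'
        have e1 : 1 + s ^ 2 * ((R ^ 2 - 1) / (1 + s ^ 2)) ≠ 0 := by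
          have : 0 ≤ (R ^ 2 - 1) / (1 + s ^ 2) := by
            apply div_nonneg
            · nlinarith
            · positivity
          positivity
        have e2 : (1 + s ^ 2) ≠ 0 := by positivity
        have h4 : X ^ 2 * (s ^ 2 * ((R ^ 2 - 1) / (1 + s ^ 2))) =
            (1 + R⁻¹ ^ 2 * s ^ 2) / (1 + s ^ 2) * (1 + s ^ 2 * ((R ^ 2 - 1) / (1 + s ^ 2))) - 1 := by
          rw [eq_div_iff e1] at h2
          linarith
        have h5 : s ^ 2 * ((R ^ 2 - 1) / (1 + s ^ 2)) ≠ 0 := by positivity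
        apply mul_right_cancel₀ h5
        rw [h4]
        field_simp
        ring
      have h4 : X ^ 2 ≤ (1/2) ^ 2 := by
        rw [h3, div_le_iff₀ (by positivity)]
        have h5 : 1 - (R⁻¹) ^ 2 ≤ R ^ 2 - 1 := by
          have h6 : R * R⁻¹ = 1 := mul_inv_cancel₀ hRpos.ne'
          have h7 : (R - R⁻¹) ^ 2 = R ^ 2 - 2 * (R * R⁻¹) + (R⁻¹) ^ 2 := by ring
          have h8 := sq_nonneg (R - R⁻¹)
          rw [h7, h6] at h8
          linarith
        nlinarith [sq_nonneg s]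
      have h5 : X ≤ 1/2 := le_of_sq_le_sq h4 (by norm_num)
      exact h5
    · have hgq : g (xf s P q) = f q := by
        simp only [hg]
        rw [node_xf s hs P hPn q hPq]
      rw [hgq] at hkl
      have h1 : Real.log (C / ‖f q'‖) ≤ (1 + 4 * tt m) * Real.log (C / ‖f q‖) := hkl
      refine h1.trans ?_
      have h4t : 4 * tt m = (1/2) ^ (m+2) := by
        unfold tt; ring
      rw [h4t]
      set u0 := Real.log (C / ‖f (node (3/4) P0 0)‖)
      have hp : 0 < (1/2 : ℝ) ^ (m+2) := by positivity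
      calc (1 + (1/2) ^ (m+2)) * Real.log (C / ‖f q‖) ≤ (1 + (1/2) ^ (m+2)) * ((2 - (1/2) ^ m) * u0) :=
            mul_le_mul_of_nonneg_left hlog (by positivity)
        _ = ((1 + (1/2) ^ (m+2)) * (2 - (1/2) ^ m)) * u0 := by ring
        _ ≤ (2 - (1/2) ^ (m+1)) * u0 := by
            apply mul_le_mul_of_nonneg_right _ hu0
            have e : (1/2 : ℝ) ^ (m+1) = 2 * (1/2) ^ (m+2) := by ring
            have e2 : (1/2 : ℝ) ^ m = 4 * (1/2) ^ (m+2) := by ring
            rw [e, e2]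
            nlinarith

theorem not_Z : ¬ ∃ f : E → ℂ, ContinuousOn f (closedBall (0:E) 1) ∧ DifferentiableOn ℂ f (ball (0:E) 1) ∧
    {z | z ∈ closedBall (0:E) 1 ∧ f z = 0} = KK := by
  rintro ⟨f, hc, hd, hZ⟩
  have hne : ∀ z ∈ ball (0:E) 1, f z ≠ 0 := by
    intro z hz h0
    have : z ∈ KK := by rw [← hZ]; exact ⟨ball_subset_closedBall hz, h0⟩
    have := KK_sphere this
    rw [mem_sphere_zero_iff_norm] at this
    rw [mem_ball_zero_iff] at hz
    linarith
  obtain ⟨C0, hC0⟩ := (isCompact_closedBall (0:E) 1).exists_bound_of_continuousOn hc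
  set C := C0 + 1 with hCdef
  have hC : ∀ z ∈ ball (0:E) 1, ‖f z‖ < C := by
    intro z hz
    have := hC0 z (ball_subset_closedBall hz)
    linarith
  choose P hPF q hq hPq _ hlog using branch f hd hne C hC
  set u0 := Real.log (C / ‖f (node (3/4) P0 0)‖) with hu0def
  have hqb : ∀ m, q m ∈ ball (0:E) 1 := fun m => by simpa using hq m
  have hCpos : 0 < C := (norm_nonneg _).trans_lt (hC _ (hqb 0))
  have hu0 : 0 ≤ u0 := by
    have h1 := hlog 0
    norm_num at h1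
    refine le_trans ?_ h1
    apply Real.log_nonneg
    rw [le_div_iff₀ (norm_pos_iff.mpr (hne _ (hqb 0))), one_mul]
    exact (hC _ (hqb 0)).le
  have hlow : ∀ m, C * Real.exp (-(2 * u0)) ≤ ‖f (q m)‖ := by
    intro m
    have hpos : 0 < ‖f (q m)‖ := norm_pos_iff.mpr (hne _ (hqb m))
    have h1 : Real.log (C / ‖f (q m)‖) ≤ 2 * u0 := by
      refine (hlog m).trans ?_
      apply mul_le_mul_of_nonneg_right _ hu0
      have : 0 < (1/2 : ℝ) ^ m := by positivity
      linarith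
    rw [Real.log_le_iff_le_exp (by positivity), div_le_iff₀ hpos] at h1
    calc C * Real.exp (-(2 * u0)) ≤ (Real.exp (2 * u0) * ‖f (q m)‖) * Real.exp (-(2 * u0)) :=
          mul_le_mul_of_nonneg_right h1 (Real.exp_pos _).le
      _ = ‖f (q m)‖ * (Real.exp (2 * u0) * Real.exp (-(2 * u0))) := by ring
      _ = ‖f (q m)‖ := by rw [← Real.exp_add]; simp
  obtain ⟨x, hx, φ, hφ, hlim⟩ := (isCompact_closedBall (0:E) 1).tendsto_subseq (fun m => ball_subset_closedBall (hqb m))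
  have hfx : C * Real.exp (-(2 * u0)) ≤ ‖f x‖ := by
    have h1 : Tendsto (fun m => f ((q ∘ φ) m)) atTop (𝓝 (f x)) := by
      have h2 : Tendsto (q ∘ φ) atTop (𝓝[closedBall (0:E) 1] x) := by
        rw [tendsto_nhdsWithin_iff]
        exact ⟨hlim, Filter.Eventually.of_forall (fun m => ball_subset_closedBall (hqb (φ m)))⟩
      exact (hc x hx).tendsto.comp h2
    exact ge_of_tendsto' h1.norm (fun m => hlow (φ m))
  have hxK : x ∈ KK := by
    intro m
    have h1 : ∀ᶠ i in atTop, (q ∘ φ) i ∈ {x : E | ∃ Q ∈ (stt m).F, ‖x - Q‖ ≤ 3 * (stt m).s} := by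
      filter_upwards [eventually_ge_atTop m] with i hi
      have hmi : m ≤ φ i := hi.trans (hφ.id_le i)
      obtain ⟨k, hk⟩ := Nat.exists_eq_add_of_le hmi
      have h2 := ancestor m k (P (φ i)) (by rw [← hk]; exact hPF (φ i))
      obtain ⟨Q, hQ, hd⟩ := h2
      refine ⟨Q, hQ, ?_⟩
      have h3 := dist_line (stt (φ i)).s (P (φ i)) ((inv_stt (φ i)).norm _ (hPF (φ i))) (q (φ i)) (hPq (φ i))
      have h4 : ‖q (φ i) - P (φ i)‖ ≤ (stt (φ i)).s := by
        apply le_of_sq_le_sq _ (s_pos _).le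
        rw [h3]
        nlinarith [hq (φ i), norm_nonneg (q (φ i))]
      have h5 := s_pos (φ i)
      rw [← hk] at hd
      calc ‖q (φ i) - Q‖ = ‖(q (φ i) - P (φ i)) + (P (φ i) - Q)‖ := by congr 1; abel
        _ ≤ ‖q (φ i) - P (φ i)‖ + ‖P (φ i) - Q‖ := norm_add_le _ _
        _ ≤ _ := by linarith
    exact (KK_closed_level m).mem_of_tendsto hlim h1
  rw [← hZ] at hxK
  have h0 := hxK.2
  rw [h0, norm_zero] at hfx
  have : 0 < C * Real.exp (-(2 * u0)) := by positivity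
  linarith

end Pool.Agent.Helper233.BA
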